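import Mathlib
import Pool.Agent.H75.Four.HHook

set_option autoImplicit false
open Finset

/-! # Hooking at the hole for one strand (T1)

`B = BB M \ BB k`, all open labels of `ω` in `BB (M - 1)`; the strand through `c` enters the hole `BB k`
forward at the corner `(-(2k), b)` of the left side and backward at `x2`. `hole_open`: a fresh open path
from the window above the tip to the window below the tip, around the tip, is joined to the vertex of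
`c`. `hole_dual`: the same for dual paths (from below to above), at the same tip. -/

namespace Pool.Agent.H19.ZF

open Pool.Agent.H75.Perc
open Pool.Agent.H75.TwoArm
open Pool.Agent.H75.Four
open Pool.Agent.H75.Four.HHookAux Pool.Agent.H75.Four.HPosAux Pool.Agent.H75.Four.PathAux

section

variable {ω ω'' U F E : Finset (ℤ × ℤ)} {c x2 p q : ℤ × ℤ} {k M : ℤ}

/-- data of the two hits of the strand through `c`, the forward one on the left side -/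
structure Tips (k M : ℤ) (ω : Finset (ℤ × ℤ)) (c : ℤ × ℤ) (b : ℤ) (x2 : ℤ × ℤ) : Prop where
  hk : 1 ≤ k
  hw : ω ⊆ BB (M - 1)
  hc : lab c ∈ BB (M - 1)
  hc' : lab c ∉ BB k
  h1 : FX (BB M \ BB k) ω c (-(2 * k), b)
  h2 : BX (BB M \ BB k) ω c x2

/-- the window at the tip: `x2` is not in the window, the closing in the window is the row `b` -/
structure Win (k b lo hi Xm : ℤ) (x2 : ℤ × ℤ) : Prop where
  hlo : -(2 * k) ≤ lo
  hlo' : lo + 1 < b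
  hhi : hi ≤ 2 * k
  hhi' : b ≤ hi
  hXm : -(2 * k) + 1 ≤ Xm
  hXm' : Xm ≤ -1
  hx1 : ¬ (x2.1 = -(2 * k) ∧ lo + 1 ≤ x2.2 ∧ x2.2 ≤ hi)
  hx2 : x2.1 ≠ -(2 * k) → Xm < x2.1

lemma Tips.labc {b : ℤ} (h : Tips k M ω c b x2) : lab c ∈ BB M \ BB k := by
  rw [mem_sdiff]
  refine ⟨?_, h.hc'⟩
  have := h.hc
  rw [mem_BB] at this ⊢
  omega

/-- all that is needed for the hooks -/
lemma Tips.data {b lo hi Xm : ℤ} (h : Tips k M ω c b x2) (w : Win k b lo hi Xm x2)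
    (hF : ∀ a ∈ F, a ∈ BB k → a.1 + 1 ≤ Xm ∧ lo + 1 ≤ a.2 ∧ a.2 + 1 ≤ hi ∧ a.2 ≠ b ∧ a.2 ≠ b - 1) :
    ∃ (R : ℤ × ℤ → Prop) (S : ℤ × ℤ → Bool), Clo (BB M \ BB k) (-(2 * k), b) x2 R ∧
      lab (-(2 * k), b) ≠ plab x2 ∧ TCR (BB M \ BB k) ω c R S ∧
      (∀ a ∈ F, ∀ z, Tch a z → ¬ R z) ∧
      ∀ p : ℤ × ℤ, (p.1 + p.2) % 2 = 0 → -(2 * k) ≤ p.1 → p.1 ≤ Xm → lo ≤ p.2 → p.2 ≤ hi →
        (S p = true ↔ b ≤ p.2) := by
  obtain ⟨hlo, hlo', hhi, hhi', hXm, hXm', hx1, hx2⟩ := w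
  have hk := h.hk
  obtain ⟨-, -, b0, hb0, hpb0⟩ := FX_hole hk h.hw h.hc h.hc' h.h1
  obtain rfl := Hpos_west hk hpb0
  obtain ⟨-, -, b2, hb2, hpb2⟩ := BX_hole hk h.hw h.hc h.hc' h.h2
  obtain ⟨hR, hin⟩ := clo_hole hk h.hw h.hc h.hc' h.h1 h.h2
  obtain ⟨S, hS⟩ := exists_TCR h.labc h.h1 h.h2 hR
  have hw : ∀ z : ℤ × ℤ, -(2 * k) + 1 ≤ z.1 → z.1 ≤ Xm → lo + 1 ≤ z.2 → z.2 ≤ hi →
      (Rh k (-(2 * k), b0) x2 z ↔ z.2 = b0) := fun z g1 g2 g3 g4 =>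
    (Rh_west hk hpb0 hpb2 hXm' hx1 hx2 g1 g2 g3 g4).1
  have eX : ((-(2 * k), b0) : ℤ × ℤ) = (-(2 * k) - 1 + 1, b0) := Prod.ext (by simp only; ring) rfl
  have hne : lab (-(2 * k), b0) ≠ plab x2 := by
    rw [(lab_hit hk hb0).1]
    intro h5
    obtain ⟨u, v⟩ := x2
    rcases ty4 (u, v) with ⟨g1, g2, g3, g4⟩ | ⟨g1, g2, g3, g4⟩ | ⟨g1, g2, g3, g4⟩ |
        ⟨g1, g2, g3, g4⟩ <;> rw [g4, Prod.mk.injEq] at h5 <;> simp only at h5 g1 g2 hx1 hx2 <;> omega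
  refine ⟨Rh k (-(2 * k), b0) x2, S, hR, hne, hS, ?_, ?_⟩
  · intro a ha z hz hRz
    obtain ⟨g1, g2, g3⟩ := touch_box hz (hin z hRz)
    obtain ⟨g4, g5, g6, g7, g8⟩ := hF a ha g1
    have g9 := (hw z (hin z hRz).1 (by omega) (by omega) (by omega)).1 hRz
    omega
  · intro p hp g1 g2 g3 g4
    have h1' := h.h1
    rw [eX] at h1'
    refine S_locF (X := -(2 * k) - 1) (Xm := Xm) (lo := lo) (hi := hi) h.labc hb0 h1' h.h2 hS
      hR.out (by omega) (by omega) hhi' ?_ ?_ hp (by omega) g2 g3 g4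
    · intro a g1 g2 g3 g4
      exact win_out hk hlo hhi hXm' a (by omega) g2 g3 g4
    · intro z g1 g2 g3 g4
      exact hw z (by omega) g2 g3 g4

/-- **T1, open**: an open path of fresh labels from above the tip to below the tip -/
theorem hole_open {b lo hi Xm : ℤ} (h : Tips k M ω c b x2) (w : Win k b lo hi Xm x2)
    (hF : ∀ a ∈ F, a ∈ BB k → a.1 + 1 ≤ Xm ∧ lo + 1 ≤ a.2 ∧ a.2 + 1 ≤ hi ∧ a.2 ≠ b ∧ a.2 ≠ b - 1)
    (hU : UU (BB M \ BB k) ω c ⊆ U) (hUF : ∀ a ∈ U, a ∈ F → a ∈ UU (BB M \ BB k) ω c)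
    (hpq : Co (ω'' ∩ F) p q) (hp1 : -k ≤ p.1) (hp1' : 2 * p.1 ≤ Xm) (hp2 : b ≤ 2 * p.2)
    (hp3 : 2 * p.2 ≤ hi) (hq1 : -k ≤ q.1) (hq1' : 2 * q.1 ≤ Xm) (hq2 : 2 * q.2 < b)
    (hq3 : lo ≤ 2 * q.2) : Co (mix U ω ω'') (vx c) p := by
  obtain ⟨R, S, hR, hne, hS, hFR, hW⟩ := h.data w hF
  have hp : S (dbl p) = true := by
    refine (hW (dbl p) ?_ ?_ ?_ ?_ ?_).2 ?_
    all_goals (unfold dbl; dsimp only)
    all_goals omega
  have hq : S (dbl q) = false := by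
    rw [← Bool.not_eq_true]
    intro h5
    have := (hW (dbl q) (by unfold dbl; dsimp only; omega) (by unfold dbl; dsimp only; omega)
      (by unfold dbl; dsimp only; omega) (by unfold dbl; dsimp only; omega)
      (by unfold dbl; dsimp only; omega)).1 h5
    unfold dbl at this
    dsimp only at this
    omega
  obtain ⟨z, hz, hz'⟩ := first_hit (U := U) hS h.h1 h.h2 hR hne hFR hU
    (fun a ha haF => Or.inl (hUF a ha haF)) hpq hp hq
  refine ((Str_co hz).1.mono ?_).trans (hz'.mono ?_).symm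
  · intro a ha
    rw [mem_inter] at ha
    rw [mem_mix]
    exact Or.inl ⟨ha.1, hU ha.2⟩
  · intro a ha
    rw [mem_sdiff, mem_inter] at ha
    rw [mem_mix]
    exact Or.inr ⟨ha.1.1, ha.2⟩

/-- **T1, dual**: a dual path of fresh labels from below the tip to above the tip -/
theorem hole_dual {b lo hi Xm : ℤ} (h : Tips k M ω c b x2) (w : Win k b lo hi Xm x2)
    (hF : ∀ a ∈ F, a ∈ BB k → a.1 + 1 ≤ Xm ∧ lo + 1 ≤ a.2 ∧ a.2 + 1 ≤ hi ∧ a.2 ≠ b ∧ a.2 ≠ b - 1)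
    (hU : UU (BB M \ BB k) ω c ⊆ U) (hUF : ∀ a ∈ U, a ∈ F → a ∈ UU (BB M \ BB k) ω c)
    (hUE : UU (BB M \ BB k) ω c ⊆ E)
    (hpq : Co (du E ω'' ∩ F.map sh1) p q) (hp1 : -(2 * k) ≤ 2 * p.1 - 1)
    (hp1' : 2 * p.1 - 1 ≤ Xm) (hp2 : 2 * p.2 - 1 < b) (hp3 : lo ≤ 2 * p.2 - 1)
    (hq1 : -(2 * k) ≤ 2 * q.1 - 1) (hq1' : 2 * q.1 - 1 ≤ Xm) (hq2 : b ≤ 2 * q.2 - 1)
    (hq3 : 2 * q.2 - 1 ≤ hi) : Co (du E (mix U ω ω'')) (fi c) p := by
  obtain ⟨R, S, hR, hne, hS, hFR, hW⟩ := h.data w hF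
  have hq : S (fp q) = true := by
    refine (hW (fp q) ?_ ?_ ?_ ?_ ?_).2 ?_
    all_goals (unfold fp; dsimp only)
    all_goals omega
  have hp : S (fp p) = false := by
    rw [← Bool.not_eq_true]
    intro h5
    have := (hW (fp p) (by unfold fp; dsimp only; omega) (by unfold fp; dsimp only; omega)
      (by unfold fp; dsimp only; omega) (by unfold fp; dsimp only; omega)
      (by unfold fp; dsimp only; omega)).1 h5
    unfold fp at this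
    dsimp only at this
    omega
  obtain ⟨z, hz, hz'⟩ := first_hitd (U := U) (E := E) hS h.h1 h.h2 hR hne hFR hU
    (fun a ha haF => Or.inl (hUF a ha haF)) hpq hp hq
  refine ((Str_co hz).2.mono ?_).trans (hz'.mono ?_).symm
  · unfold du
    refine map_subset_map.2 ?_
    intro a ha
    rw [mem_sdiff] at ha ⊢
    refine ⟨hUE ha.1, ?_⟩
    rw [mem_mix]
    rintro (h3 | h3)
    · exact ha.2 h3.1
    · exact h3.2 (hU ha.1)
  · intro a ha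
    rw [mem_sdiff, mem_inter] at ha
    obtain ⟨⟨h3, h4⟩, h5⟩ := ha
    unfold du at h3 ⊢
    rw [mem_map] at h3 ⊢
    obtain ⟨a', h6, rfl⟩ := h3
    rw [mem_sdiff] at h6
    refine ⟨a', ?_, rfl⟩
    rw [mem_sdiff]
    refine ⟨h6.1, ?_⟩
    rw [mem_mix]
    rintro (h3 | h3)
    · exact h5 (mem_map_of_mem _ h3.2)
    · exact h6.2 h3.1

end

end Pool.Agent.H19.ZF
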