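import Mathlib
import Pool.Agent.H53.ZF.Geo
import Pool.Agent.H19.ZF.Hole2

set_option autoImplicit false
open Finset

/-! # The exploration from both ends in the language of the hole

`od w` : the labels of `w` with odd coordinate sum (the only ones which are seen by a strand).
`TipF`, `TipB`, `MetL` for the box `BB R` are `FX`, `BX`, `∈ UU` for `BB M \ BB R`, `M` large. -/

namespace Pool.Agent.H19.ZF

open Pool.Agent.H75.Perc
open Pool.Agent.H75.TwoArm
open Pool.Agent.H75.Four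
open Pool.Agent.H75.Four.HHookAux Pool.Agent.H75.Four.HPosAux Pool.Agent.H75.Four.PathAux
open Pool.Agent.H53.ZF

/-- the odd labels -/
def od (w : Finset (ℤ × ℤ)) : Finset (ℤ × ℤ) := w.filter (fun e => (e.1 + e.2) % 2 = 1)

lemma od_sub (w : Finset (ℤ × ℤ)) : od w ⊆ w := filter_subset _ _

lemma lab_odd' (c : ℤ × ℤ) : ((lab c).1 + (lab c).2) % 2 = 1 := by
  rcases ty4 c with ⟨h1, h2, h3, -⟩ | ⟨h1, h2, h3, -⟩ | ⟨h1, h2, h3, -⟩ | ⟨h1, h2, h3, -⟩ <;>
    rw [h3] <;> simp only <;> omega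

lemma plab_odd' (c : ℤ × ℤ) : ((plab c).1 + (plab c).2) % 2 = 1 := by
  rcases ty4 c with ⟨h1, h2, -, h3⟩ | ⟨h1, h2, -, h3⟩ | ⟨h1, h2, -, h3⟩ | ⟨h1, h2, -, h3⟩ <;>
    rw [h3] <;> simp only <;> omega

lemma nx_od (w : Finset (ℤ × ℤ)) : nx (od w) = nx w := by
  funext c
  unfold nx
  have : lab c ∈ od w ↔ lab c ∈ w := by
    unfold od
    rw [mem_filter]
    exact ⟨fun h => h.1, fun h => ⟨h, lab_odd' c⟩⟩
  by_cases h : lab c ∈ w
  · rw [if_pos h, if_pos (this.2 h)]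
  · rw [if_neg h, if_neg (fun h' => h (this.1 h'))]

lemma pv_od (w : Finset (ℤ × ℤ)) : pv (od w) = pv w := by
  funext c
  have h1 : nx w (pv (od w) c) = nx w (pv w c) := by
    rw [nx_pv, ← nx_od w, nx_pv]
  exact nx_injective w h1

lemma exists_M (w : Finset (ℤ × ℤ)) (hw : ∀ e ∈ w, (e.1 + e.2) % 2 = 1) :
    ∃ M : ℤ, ∀ M' : ℤ, M ≤ M' → w ⊆ BB M' := by
  classical
  induction w using Finset.induction_on with
  | empty => exact ⟨0, fun _ _ => empty_subset _⟩
  | insert a s ha ih =>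
    obtain ⟨M, hM⟩ := ih (fun e he => hw e (mem_insert_of_mem he))
    refine ⟨max M (max |a.1| |a.2|), fun M' hM' => ?_⟩
    have h1 := hM M' (le_trans (le_max_left _ _) hM')
    have h2 : |a.1| ≤ M' := le_trans (le_trans (le_max_left _ _) (le_max_right _ _)) hM'
    have h3 : |a.2| ≤ M' := le_trans (le_trans (le_max_right _ _) (le_max_right _ _)) hM'
    rw [abs_le] at h2 h3
    intro e he
    rcases mem_insert.1 he with rfl | he
    · rw [mem_BB]
      have := hw e (mem_insert_self _ _)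
      omega
    · exact h1 he

/-- frame: the configuration and the root for the hole `BB R` -/
structure Fr (R M : ℤ) (w : Finset (ℤ × ℤ)) (c0 : ℤ × ℤ) : Prop where
  hR : 1 ≤ R
  hw : od w ⊆ BB (M - 1)
  hc : lab c0 ∈ BB (M - 1)
  hc' : lab c0 ∉ BB R
  hp : plab c0 ∈ BB (M - 1)
  hp' : plab c0 ∉ BB R

lemma lab_far {R : ℤ} {c : ℤ × ℤ} (h : R < |(vx c).1| ∨ R < |(vx c).2|) :
    lab c ∉ BB R ∧ plab c ∉ BB R := by
  rw [lt_abs, lt_abs] at h
  rw [mem_BB, mem_BB]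
  unfold vx at h
  simp only at h
  rcases ty4 c with ⟨h1, h2, h3, h4⟩ | ⟨h1, h2, h3, h4⟩ | ⟨h1, h2, h3, h4⟩ | ⟨h1, h2, h3, h4⟩ <;>
    rw [h3, h4] <;> simp only <;> omega

lemma exists_Fr {R : ℤ} (hR : 1 ≤ R) (w : Finset (ℤ × ℤ)) {c0 : ℤ × ℤ}
    (h : R < |(vx c0).1| ∨ R < |(vx c0).2|) : ∃ M, R < M ∧ Fr R M w c0 := by
  classical
  obtain ⟨M, hM⟩ := exists_M (insert (lab c0) (insert (plab c0) (od w))) (by
    intro e he
    rcases mem_insert.1 he with rfl | he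
    · exact lab_odd' _
    rcases mem_insert.1 he with rfl | he
    · exact plab_odd' _
    · exact (mem_filter.1 he).2)
  obtain ⟨h1, h2⟩ := lab_far h
  have h3 := hM (max M R) (le_max_left _ _)
  have e : max M R + 1 - 1 = max M R := by ring
  refine ⟨max M R + 1, by have := le_max_right M R; omega, hR, ?_, ?_, h1, ?_, h2⟩
  · rw [e]
    exact (subset_insert _ _).trans ((subset_insert _ _).trans h3)
  · rw [e]
    exact h3 (mem_insert_self _ _)
  · rw [e]
    exact h3 (mem_insert_of_mem (mem_insert_self _ _))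

section

variable {R M : ℤ} {w : Finset (ℤ × ℤ)} {c0 : ℤ × ℤ}

lemma Fr.lab_it (h : Fr R M w c0) (n : ℕ) : lab ((nx w)^[n] c0) ∈ BB M ∧
    plab ((nx w)^[n] c0) ∈ BB M ∧ lab ((pv w)^[n] c0) ∈ BB M ∧ plab ((pv w)^[n] c0) ∈ BB M := by
  have h1 := Q_it h.hw (Q_of_lab h.hc) n
  rw [nx_od, pv_od] at h1
  exact ⟨(labs_of_Q h1.1).1, (labs_of_Q h1.1).2, (labs_of_Q h1.2).1, (labs_of_Q h1.2).2⟩

lemma Fr.FX_iff (h : Fr R M w c0) (a : ℤ × ℤ) : FX (BB M \ BB R) (od w) c0 a ↔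
    TipF w (BB R) c0 a := by
  unfold FX TipF
  rw [nx_od]
  constructor
  · rintro ⟨n, h1, h2, h3⟩
    refine ⟨n, h1, ?_, fun i hi => (mem_sdiff.1 (h3 i hi)).2⟩
    by_contra hcon
    have := (h.lab_it n).1
    rw [h1] at this
    exact h2 (mem_sdiff.2 ⟨this, hcon⟩)
  · rintro ⟨n, h1, h2, h3⟩
    exact ⟨n, h1, fun h4 => (mem_sdiff.1 h4).2 h2, fun i hi =>
      mem_sdiff.2 ⟨(h.lab_it i).1, h3 i hi⟩⟩

lemma Fr.BX_iff (h : Fr R M w c0) (a : ℤ × ℤ) : BX (BB M \ BB R) (od w) c0 a ↔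
    TipB w (BB R) c0 a := by
  unfold BX TipB
  rw [pv_od]
  constructor
  · rintro ⟨n, h1, h2, h3⟩
    refine ⟨n, h1, ?_, fun i hi => (mem_sdiff.1 (h3 i hi)).2⟩
    by_contra hcon
    have := (h.lab_it n).2.2.2
    rw [h1] at this
    exact h2 (mem_sdiff.2 ⟨this, hcon⟩)
  · rintro ⟨n, h1, h2, h3⟩
    exact ⟨n, h1, fun h4 => (mem_sdiff.1 h4).2 h2, fun i hi =>
      mem_sdiff.2 ⟨(h.lab_it i).2.2.2, h3 i hi⟩⟩

lemma Fr.UU_iff (h : Fr R M w c0) (e : ℤ × ℤ) : e ∈ UU (BB M \ BB R) (od w) c0 ↔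
    MetL w (BB R) c0 e := by
  rw [StrandAux.mem_UU]
  unfold Str MetL
  rw [nx_od, pv_od]
  constructor
  · rintro ⟨he, z, hz, hz'⟩
    have he2 := (mem_sdiff.1 he).2
    rcases hz with ⟨n, h1, h2⟩ | ⟨n, h1, h2⟩
    · rcases hz' with hz' | hz'
      · left
        refine ⟨n, by rw [h1]; exact hz', fun i hi => ?_⟩
        rcases hi.lt_or_eq with h3 | h3
        · exact (mem_sdiff.1 (h2 i h3)).2
        · rw [h3, h1, hz']; exact he2
      · rcases n with _ | n
        · right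
          have h1' : c0 = z := h1
          refine ⟨0, ?_, fun i hi => ?_⟩
          · show plab c0 = e
            rw [h1']; exact hz'
          · obtain rfl : i = 0 := by omega
            exact h.hp'
        · left
          refine ⟨n, ?_, fun i hi => (mem_sdiff.1 (h2 i (by omega))).2⟩
          rw [← hz', ← h1, Function.iterate_succ_apply', plab_nx]
    · rcases hz' with hz' | hz'
      · rcases n with _ | n
        · left
          have h1' : c0 = z := h1
          refine ⟨0, ?_, fun i hi => ?_⟩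
          · show lab c0 = e
            rw [h1']; exact hz'
          · obtain rfl : i = 0 := by omega
            exact h.hc'
        · right
          refine ⟨n, ?_, fun i hi => (mem_sdiff.1 (h2 i (by omega))).2⟩
          rw [← hz', ← h1, Function.iterate_succ_apply', lab_pv]
      · right
        refine ⟨n, by rw [h1]; exact hz', fun i hi => ?_⟩
        rcases hi.lt_or_eq with h3 | h3
        · exact (mem_sdiff.1 (h2 i h3)).2
        · rw [h3, h1, hz']; exact he2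
  · rintro (⟨n, h1, h2⟩ | ⟨n, h1, h2⟩)
    · refine ⟨?_, _, Or.inl ⟨n, rfl, fun i hi => ?_⟩, Or.inl h1⟩
      · rw [← h1]
        exact mem_sdiff.2 ⟨(h.lab_it n).1, h2 n le_rfl⟩
      · exact mem_sdiff.2 ⟨(h.lab_it i).1, h2 i hi.le⟩
    · refine ⟨?_, _, Or.inr ⟨n, rfl, fun i hi => ?_⟩, Or.inr h1⟩
      · rw [← h1]
        exact mem_sdiff.2 ⟨(h.lab_it n).2.2.2, h2 n le_rfl⟩
      · exact mem_sdiff.2 ⟨(h.lab_it i).2.2.2, h2 i hi.le⟩

end

end Pool.Agent.H19.ZF
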