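import Mathlib
import Pool.Agent.H53.ZF.Pcs
import Pool.Agent.H19.ZF.Conv

set_option autoImplicit false
open Finset

/-! # T1: outer hooks of both colours at the forward tip (tip on the right side) -/

namespace Pool.Agent.H19.ZF

open Pool.Agent.H75.Perc
open Pool.Agent.H75.TwoArm
open Pool.Agent.H75.TwoArm.SymmAux Pool.Agent.H75.TwoArm.CorrAux
open Pool.Agent.H75.Four
open Pool.Agent.H75.Four.HHookAux Pool.Agent.H75.Four.HPosAux Pool.Agent.H75.Four.PathAux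
open Pool.Agent.H53.ZF Pool.Agent.Q1

section left

variable {ω U F E : Finset (ℤ × ℤ)} {c x2 p q : ℤ × ℤ} {k M : ℤ}

/-- open hook, one configuration; the labels of `U` are regarded as open -/
theorem hole_open1 {b lo hi Xm : ℤ} (h : Tips k M ω c b x2) (w : Win k b lo hi Xm x2)
    (hF : ∀ a ∈ F, a ∈ BB k → a.1 + 1 ≤ Xm ∧ lo + 1 ≤ a.2 ∧ a.2 + 1 ≤ hi ∧ a.2 ≠ b ∧ a.2 ≠ b - 1)
    (hUF : ∀ a ∈ U, a ∈ F → a ∈ UU (BB M \ BB k) ω c)
    (hpq : Co ((ω ∪ U) ∩ F) p q) (hp1 : -k ≤ p.1) (hp1' : 2 * p.1 ≤ Xm) (hp2 : b ≤ 2 * p.2)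
    (hp3 : 2 * p.2 ≤ hi) (hq1 : -k ≤ q.1) (hq1' : 2 * q.1 ≤ Xm) (hq2 : 2 * q.2 < b)
    (hq3 : lo ≤ 2 * q.2) : Co ω (vx c) p := by
  obtain ⟨R, S, hR, hne, hS, hFR, hW⟩ := h.data w hF
  have hp : S (dbl p) = true := by
    refine (hW (dbl p) ?_ ?_ ?_ ?_ ?_).2 ?_
    all_goals (unfold dbl; dsimp only)
    all_goals omega
  have hq : S (dbl q) = false := by
    rw [← Bool.not_eq_true]
    intro h5
    have := (hW (dbl q) (by unfold dbl; dsimp only; omega) (by unfold dbl; dsimp only; omega)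
      (by unfold dbl; dsimp only; omega) (by unfold dbl; dsimp only; omega)
      (by unfold dbl; dsimp only; omega)).1 h5
    unfold dbl at this
    dsimp only at this
    omega
  obtain ⟨z, hz, hz'⟩ := first_hit (U := UU (BB M \ BB k) ω c) hS h.h1 h.h2 hR hne hFR subset_rfl
    (fun a ha _ => Or.inl ha) hpq hp hq
  refine ((Str_co hz).1.mono inter_subset_left).trans (hz'.mono ?_).symm
  intro a ha
  rw [mem_sdiff, mem_inter, mem_union] at ha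
  obtain ⟨⟨ha1 | ha1, ha2⟩, ha3⟩ := ha
  · exact ha1
  · exact absurd (hUF a ha1 ha2) ha3

/-- dual hook, one configuration; the labels of `U` are regarded as closed -/
theorem hole_dual1 {b lo hi Xm : ℤ} (h : Tips k M ω c b x2) (w : Win k b lo hi Xm x2)
    (hF : ∀ a ∈ F, a ∈ BB k → a.1 + 1 ≤ Xm ∧ lo + 1 ≤ a.2 ∧ a.2 + 1 ≤ hi ∧ a.2 ≠ b ∧ a.2 ≠ b - 1)
    (hUF : ∀ a ∈ U, a ∈ F → a ∈ UU (BB M \ BB k) ω c)
    (hpq : Co (du E (ω \ U) ∩ F.map sh1) p q) (hp1 : -(2 * k) ≤ 2 * p.1 - 1)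
    (hp1' : 2 * p.1 - 1 ≤ Xm) (hp2 : 2 * p.2 - 1 < b) (hp3 : lo ≤ 2 * p.2 - 1)
    (hq1 : -(2 * k) ≤ 2 * q.1 - 1) (hq1' : 2 * q.1 - 1 ≤ Xm) (hq2 : b ≤ 2 * q.2 - 1)
    (hq3 : 2 * q.2 - 1 ≤ hi) : DCo ω (fi c) p := by
  obtain ⟨R, S, hR, hne, hS, hFR, hW⟩ := h.data w hF
  have hq : S (fp q) = true := by
    refine (hW (fp q) ?_ ?_ ?_ ?_ ?_).2 ?_
    all_goals (unfold fp; dsimp only)
    all_goals omega
  have hp : S (fp p) = false := by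
    rw [← Bool.not_eq_true]
    intro h5
    have := (hW (fp p) (by unfold fp; dsimp only; omega) (by unfold fp; dsimp only; omega)
      (by unfold fp; dsimp only; omega) (by unfold fp; dsimp only; omega)
      (by unfold fp; dsimp only; omega)).1 h5
    unfold fp at this
    dsimp only at this
    omega
  obtain ⟨z, hz, hz'⟩ := first_hitd (U := UU (BB M \ BB k) ω c) (E := E) hS h.h1 h.h2 hR hne hFR
    subset_rfl (fun a ha _ => Or.inl ha) hpq hp hq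
  refine ⟨E ∪ UU (BB M \ BB k) ω c, ((Str_co hz).2.mono ?_).trans (hz'.mono ?_).symm⟩
  · unfold du
    exact map_subset_map.2 (sdiff_subset_sdiff subset_union_right subset_rfl)
  · intro a ha
    rw [mem_sdiff, mem_inter] at ha
    obtain ⟨⟨h3, h4⟩, h5⟩ := ha
    unfold du at h3 ⊢
    rw [mem_map] at h3 ⊢
    obtain ⟨a', h6, rfl⟩ := h3
    rw [mem_sdiff, mem_sdiff] at h6
    refine ⟨a', ?_, rfl⟩
    rw [mem_sdiff, mem_union]
    refine ⟨Or.inl h6.1, fun h7 => ?_⟩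
    refine h5 (mem_map_of_mem _ (hUF a' ?_ ?_))
    · by_contra h8
      exact h6.2 ⟨h7, h8⟩
    · rw [mem_map] at h4
      obtain ⟨a'', h8, h9⟩ := h4
      rw [sh1.injective h9] at h8
      exact h8

end left

/-! ### Half turn -/

/-- half turn of a set of labels -/
noncomputable def r2 (w : Finset (ℤ × ℤ)) : Finset (ℤ × ℤ) := (w.map rotL).map rotL

lemma mem_r2 {w : Finset (ℤ × ℤ)} {e : ℤ × ℤ} : e ∈ r2 w ↔ (-e.1, -e.2) ∈ w := by
  unfold r2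
  have h1 : e = rotL (rotL (-e.1, -e.2)) := by
    unfold rotL
    simp only [Function.Embedding.coeFn_mk, neg_neg]
  constructor
  · intro h
    rw [h1] at h
    exact (mem_map' rotL).1 ((mem_map' rotL).1 h)
  · intro h
    rw [h1]
    exact (mem_map' rotL).2 ((mem_map' rotL).2 h)

lemma r2_BB (R : ℤ) : r2 (BB R) = BB R := by unfold r2; rw [map_rotL_BB, map_rotL_BB]

lemma r2_sdiff (A B : Finset (ℤ × ℤ)) : r2 (A \ B) = r2 A \ r2 B := by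
  unfold r2; rw [Finset.map_sdiff, Finset.map_sdiff]

lemma FX_r2 {B ω : Finset (ℤ × ℤ)} {c x : ℤ × ℤ} :
    FX (r2 B) (r2 ω) (rotc (rotc c)) (rotc (rotc x)) ↔ FX B ω c x := by
  unfold r2; rw [FX_rot', FX_rot']

lemma BX_r2 {B ω : Finset (ℤ × ℤ)} {c x : ℤ × ℤ} :
    BX (r2 B) (r2 ω) (rotc (rotc c)) (rotc (rotc x)) ↔ BX B ω c x := by
  unfold r2; rw [BX_rot', BX_rot']

lemma UU_r2 {B ω : Finset (ℤ × ℤ)} {c : ℤ × ℤ} :
    UU (r2 B) (r2 ω) (rotc (rotc c)) = r2 (UU B ω c) := by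
  unfold r2; rw [UU_rot, UU_rot]

lemma Co_r2 {ω : Finset (ℤ × ℤ)} {u v : ℤ × ℤ} : Co (r2 ω) (-u.1, -u.2) (-v.1, -v.2) ↔ Co ω u v := by
  rw [← Co_rot (ω := ω), ← Co_rot (ω := ω.map rotL)]
  rfl

lemma Co_r2D {ω : Finset (ℤ × ℤ)} {u v : ℤ × ℤ} :
    Co ((ω.map rotD).map rotD) (1 - u.1, 1 - u.2) (1 - v.1, 1 - v.2) ↔ Co ω u v := by
  rw [← Co_rotD (ω := ω), ← Co_rotD (ω := ω.map rotD)]
  rfl

lemma rotc2 (c : ℤ × ℤ) : rotc (rotc c) = (1 - c.1, 1 - c.2) := rfl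

lemma dco_od {w : Finset (ℤ × ℤ)} {f g : ℤ × ℤ} (h : DCo (od w) f g) : DCo w f g := by
  obtain ⟨F, hF⟩ := h
  refine ⟨F, Relation.ReflTransGen.mono (fun x y hxy => ?_) _ _ hF⟩
  obtain ⟨h1, h2⟩ := hxy
  have h3 := odd_of_unitd h1
  rw [HookAux.mem_du] at h2
  exact ⟨h1, HookAux.mem_du.2 ⟨h2.1, fun h4 => h2.2 (mem_filter.2 ⟨h4, h3⟩)⟩⟩

/-- **T1** outer hooks of both colours at the forward tip `a` (tip on the right side). -/
def T1' : Prop := ∀ (w U E : Finset (ℤ × ℤ)) (c0 a b : ℤ × ℤ) (R u y : ℤ), 1 ≤ u → 100 * u ≤ R →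
  (R < |(vx c0).1| ∨ R < |(vx c0).2|) → TipF w (BB R) c0 a → TipB w (BB R) c0 b → vx a = (R, y) →
  |y| ≤ R - 30 * u → (20 * u < |(vx a).1 - (vx b).1| ∨ 20 * u < |(vx a).2 - (vx b).2|) →
  (∀ q : ℤ × ℤ, (q = (R, R) ∨ q = (R, -R)) → ¬ NearL q (40 * u) (plab b)) →
  (∀ e ∈ U, 2 * (R - 28 * u) - 1 ≤ e.1 → MetL w (BB R) c0 e) →
  (∀ p q : ℤ × ℤ, p.1 = R - 20 * u → q.1 = R + 2 * u →
    inB (R - 20 * u) (R + 2 * u) (y - 2 * u) (y - u) p →
    Co ((w ∪ U) ∩ Bx (R - 20 * u) (R + 2 * u) (y - 2 * u) (y - u)) p q →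
    VC (R + u) (R + 2 * u) (y - 2 * u) (y + 2 * u) (w ∪ U) →
    HC (R - 1) (R + 2 * u) (y + u) (y + 2 * u) (w ∪ U) → Co w (vx a) p) ∧
  (∀ p q : ℤ × ℤ, p.1 = R - 28 * u → q.1 = R + 8 * u →
    inB (R - 28 * u) (R + 8 * u) (y + 4 * u) (y + 8 * u) p →
    Co (du E (w \ U) ∩ Bx (R - 28 * u) (R + 8 * u) (y + 4 * u) (y + 8 * u)) p q →
    VC (R + 4 * u) (R + 8 * u) (y - 8 * u) (y + 8 * u) (du E (w \ U)) →
    HC (R - 1) (R + 8 * u) (y - 8 * u) (y - 4 * u) (du E (w \ U)) → DCo w (fi a) p)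

/-- three crossings in the form of a `U`, open to the left -/
lemma joinR {a a' m b c d c' d' cc dd : ℤ} {η : Finset (ℤ × ℤ)} (h1 : a < m) (h1' : a' < m)
    (h2 : m ≤ b) (h3 : cc ≤ c) (h4 : d ≤ dd) (h3' : cc ≤ c') (h4' : d' ≤ dd) {p q : ℤ × ℤ}
    (hp : inB a b c d p) (hp1 : p.1 = a) (hq1 : q.1 = b) (hpq : Co (η ∩ Bx a b c d) p q)
    (hV : VC m b cc dd η) (hH : HC a' b c' d' η) :
    ∃ q', inB a' b c' d' q' ∧ q'.1 = a' ∧
      Co (η ∩ (Bx a b c d ∪ (Bx m b cc dd ∪ Bx a' b c' d'))) p q' := by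
  obtain ⟨v0, v1, hv0, hv02, hv1, hv⟩ := hV
  obtain ⟨p', q', hp', hp1', hq1', hpq'⟩ := hH
  obtain ⟨z, hz1, hz2⟩ := meetR h1 h2 h3 h4 hp hp1 hq1 hpq hv0 hv02 hv1 hv
  obtain ⟨z', hz1', hz2'⟩ := meetR h1' h2 h3' h4' hp' hp1' hq1' hpq' hv0 hv02 hv1 hv
  refine ⟨p', hp', hp1', ?_⟩
  set G := Bx a b c d ∪ (Bx m b cc dd ∪ Bx a' b c' d') with hG
  have i1 : η ∩ Bx a b c d ⊆ η ∩ G := inter_subset_inter_left subset_union_left
  have i2 : η ∩ Bx m b cc dd ⊆ η ∩ G :=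
    inter_subset_inter_left (subset_union_left.trans subset_union_right)
  have i3 : η ∩ Bx a' b c' d' ⊆ η ∩ G :=
    inter_subset_inter_left (subset_union_right.trans subset_union_right)
  have e1 : Co (η ∩ G) p q := hpq.mono i1
  have e2 : Co (η ∩ G) q z :=
    hz1.mono ((inter_subset_inter_left (Bx_sub h1.le le_rfl le_rfl le_rfl)).trans i1)
  have e3 : Co (η ∩ G) v0 z := hz2.mono i2
  have e4 : Co (η ∩ G) v0 z' := hz2'.mono i2
  have e5 : Co (η ∩ G) q' z' :=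
    hz1'.mono ((inter_subset_inter_left (Bx_sub h1'.le le_rfl le_rfl le_rfl)).trans i3)
  have e6 : Co (η ∩ G) p' q' := hpq'.mono i3
  exact ((((e1.trans e2).trans e3.symm).trans e4).trans e5.symm).trans e6.symm

section right

variable {w U E : Finset (ℤ × ℤ)} {c0 a b : ℤ × ℤ} {R u y : ℤ}

/-- the frame of the left side -/
lemma tips_right (hR : 1 ≤ R) (hc : R < |(vx c0).1| ∨ R < |(vx c0).2|)
    (h1 : TipF w (BB R) c0 a) (h2 : TipB w (BB R) c0 b) (ha : vx a = (R, y)) (hy : |y| < R) :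
    ∃ M, Fr R M w c0 ∧ a = (2 * R + 1, 2 * y + 1) ∧
      Tips R M (r2 (od w)) (rotc (rotc c0)) (-(2 * y)) (rotc (rotc b)) ∧
      ∃ b' : ℤ, b' % 2 = 1 ∧ Hpos R b' b := by
  obtain ⟨M, hRM, hF⟩ := exists_Fr hR w hc
  have g1 := (hF.FX_iff a).2 h1
  have g2 := (hF.BX_iff b).2 h2
  obtain ⟨-, -, b0, hb0, hb1, hb2, hb3⟩ := FX_hole hR hF.hw hF.hc hF.hc' g1
  obtain ⟨-, -, b', hb', hpb'⟩ := BX_hole hR hF.hw hF.hc hF.hc' g2
  rw [abs_lt] at hy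
  have hpos : a = (2 * R + 1, 2 * y + 1) := by
    obtain ⟨h5, h6⟩ := Prod.mk.inj (show ((a.1 / 2, a.2 / 2) : ℤ × ℤ) = (R, y) from ha)
    rcases hb3 with h | h | h | h <;> rw [h] at h5 h6 ⊢ <;> simp only at h5 h6 <;>
      refine Prod.ext ?_ ?_ <;> simp only <;> omega
  have hBB : r2 (BB M \ BB R) = BB M \ BB R := by rw [r2_sdiff, r2_BB, r2_BB]
  refine ⟨M, hF, hpos, ⟨hR, ?_, ?_, ?_, ?_, ?_⟩, b', hb', hpb'⟩
  · rw [← r2_BB]
    unfold r2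
    exact map_subset_map.2 (map_subset_map.2 hF.hw)
  · rw [lab_rot, lab_rot, rotL_mem_BB, rotL_mem_BB]; exact hF.hc
  · rw [lab_rot, lab_rot, rotL_mem_BB, rotL_mem_BB]; exact hF.hc'
  · have h3 := FX_r2.2 g1
    rw [hBB, rotc2 a, hpos] at h3
    have e : ((1 - (2 * R + 1), 1 - (2 * y + 1)) : ℤ × ℤ) = (-(2 * R), -(2 * y)) :=
      Prod.ext (by simp only; ring) (by simp only; ring)
    rw [e] at h3
    exact h3
  · have h3 := BX_r2.2 g2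
    rw [hBB] at h3
    exact h3

lemma win_right (_hu : 1 ≤ u) (_hRu : 100 * u ≤ R) (ha : vx a = (R, y)) (hy : |y| ≤ R - 30 * u)
    (hsep : 20 * u < |(vx a).1 - (vx b).1| ∨ 20 * u < |(vx a).2 - (vx b).2|)
    (hnear : ∀ q : ℤ × ℤ, (q = (R, R) ∨ q = (R, -R)) → ¬ NearL q (40 * u) (plab b))
    (hb : ∃ b' : ℤ, b' % 2 = 1 ∧ Hpos R b' b) {lo hi Xm : ℤ} (h1 : -(2 * y) - 16 * u ≤ lo)
    (h2 : lo + 1 < -(2 * y)) (h3 : hi ≤ -(2 * y) + 16 * u + 2) (h4 : -(2 * y) ≤ hi)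
    (h5 : -(2 * R) + 1 ≤ Xm) (h6 : Xm ≤ -(2 * R) + 56 * u + 2) :
    Win R (-(2 * y)) lo hi Xm (rotc (rotc b)) := by
  obtain ⟨b', hb', hb1, hb2, hb3⟩ := hb
  rw [abs_le] at hy
  have n1 := hnear (R, R) (Or.inl rfl)
  have n2 := hnear (R, -R) (Or.inr rfl)
  unfold NearL at n1 n2
  simp only [abs_le] at n1 n2
  rw [ha, lt_abs, lt_abs] at hsep
  have hp : ∀ x1 x2 : ℤ, b = (x1, x2) → plab b =
      (if x2 % 2 = 0 then (if x1 % 2 = 0 then (x1 - 1, x2) else (x1 - 1, x2 - 1))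
       else (if x1 % 2 = 0 then (x1, x2) else (x1, x2 - 1))) := by
    rintro x1 x2 rfl; rfl
  have hv : ∀ x1 x2 : ℤ, b = (x1, x2) → vx b = (x1 / 2, x2 / 2) := by
    rintro x1 x2 rfl; rfl
  rw [rotc2]
  refine ⟨by omega, h2, by omega, h4, h5, by omega, ?_, ?_⟩
  · rintro ⟨g1, g2, g3⟩
    simp only at g1 g2 g3
    rcases hb3 with h | h | h | h
    · rw [hv _ _ h] at hsep
      rw [h] at g2 g3
      simp only at hsep g2 g3
      omega
    all_goals (rw [h] at g1; simp only at g1; omega)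
  · intro g1
    simp only at g1 ⊢
    rcases hb3 with h | h | h | h
    · rw [h] at g1; simp only at g1; omega
    · rw [hp _ _ h] at n1
      rw [h]
      simp only at n1 ⊢
      rw [if_neg (by omega), if_neg (by omega)] at n1
      simp only at n1
      omega
    · rw [h]; simp only; omega
    · rw [hp _ _ h] at n2
      rw [h]
      simp only at n2 ⊢
      rw [if_pos (by omega), if_pos (by omega)] at n2
      simp only at n2
      omega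

lemma vx_rotc2 (c : ℤ × ℤ) : vx (rotc (rotc c)) = (-(vx c).1, -(vx c).2) := by
  rw [vx_rot, vx_rot]; rfl

lemma fi_rotc2 (c : ℤ × ℤ) : fi (rotc (rotc c)) = (1 - (fi c).1, 1 - (fi c).2) := by
  rw [fi_rot, fi_rot]; rfl

lemma od_Bx {w : Finset (ℤ × ℤ)} {e : ℤ × ℤ} {x0 x1 y0 y1 : ℤ} (h : e ∈ w)
    (h' : e ∈ Bx x0 x1 y0 y1) : e ∈ od w := mem_filter.2 ⟨h, (mem_Bx.1 h').2.2⟩

lemma t1_open (hu : 1 ≤ u) (hRu : 100 * u ≤ R) (hc : R < |(vx c0).1| ∨ R < |(vx c0).2|)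
    (h1 : TipF w (BB R) c0 a) (h2 : TipB w (BB R) c0 b) (ha : vx a = (R, y))
    (hy : |y| ≤ R - 30 * u)
    (hsep : 20 * u < |(vx a).1 - (vx b).1| ∨ 20 * u < |(vx a).2 - (vx b).2|)
    (hnear : ∀ q : ℤ × ℤ, (q = (R, R) ∨ q = (R, -R)) → ¬ NearL q (40 * u) (plab b))
    (hU : ∀ e ∈ U, 2 * (R - 28 * u) - 1 ≤ e.1 → MetL w (BB R) c0 e) {p q : ℤ × ℤ}
    (hp1 : p.1 = R - 20 * u) (hq1 : q.1 = R + 2 * u)
    (hp : inB (R - 20 * u) (R + 2 * u) (y - 2 * u) (y - u) p)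
    (hpq : Co ((w ∪ U) ∩ Bx (R - 20 * u) (R + 2 * u) (y - 2 * u) (y - u)) p q)
    (hV : VC (R + u) (R + 2 * u) (y - 2 * u) (y + 2 * u) (w ∪ U))
    (hH : HC (R - 1) (R + 2 * u) (y + u) (y + 2 * u) (w ∪ U)) : Co w (vx a) p := by
  obtain ⟨M, hF, hpos, hT, hb⟩ := tips_right (by omega) hc h1 h2 ha (by omega)
  have hW := win_right hu hRu ha hy hsep hnear hb (lo := -(2 * y) - 4 * u - 1)
    (hi := -(2 * y) + 4 * u + 1) (Xm := -(2 * R) + 40 * u + 1) (by omega) (by omega) (by omega)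
    (by omega) (by omega) (by omega)
  obtain ⟨q3, hq3, hq31, hco⟩ := joinR (by omega) (by omega) (by omega) (by omega) (by omega)
    (by omega) (by omega) hp hp1 hq1 hpq hV hH
  set F := Bx (R - 20 * u) (R + 2 * u) (y - 2 * u) (y - u) ∪
    (Bx (R + u) (R + 2 * u) (y - 2 * u) (y + 2 * u) ∪
      Bx (R - 1) (R + 2 * u) (y + u) (y + 2 * u)) with hFdef
  have hBB : r2 (BB M \ BB R) = BB M \ BB R := by rw [r2_sdiff, r2_BB, r2_BB]
  have hco2 := Co_r2.2 hco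
  have hFm : ∀ e : ℤ × ℤ, e ∈ F → (2 * (R - 20 * u) ≤ e.1 ∧ e.1 ≤ 2 * (R + 2 * u) ∧
      2 * (y - 2 * u) ≤ e.2 ∧ e.2 ≤ 2 * (y - u)) ∨ (2 * (R + u) ≤ e.1 ∧ e.1 ≤ 2 * (R + 2 * u) ∧
      2 * (y - 2 * u) ≤ e.2 ∧ e.2 ≤ 2 * (y + 2 * u)) ∨ (2 * (R - 1) ≤ e.1 ∧
      e.1 ≤ 2 * (R + 2 * u) ∧ 2 * (y + u) ≤ e.2 ∧ e.2 ≤ 2 * (y + 2 * u)) := by
    intro e he
    rw [hFdef, mem_union, mem_union, mem_Bx, mem_Bx, mem_Bx] at he
    omega
  have hodd : ∀ e ∈ F, (e.1 + e.2) % 2 = 1 := by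
    intro e he
    rw [hFdef, mem_union, mem_union, mem_Bx, mem_Bx, mem_Bx] at he
    omega
  have hmain : Co (r2 (od w)) (vx (rotc (rotc c0))) (-p.1, -p.2) := by
    refine hole_open1 (U := r2 U) (F := r2 F) hT hW ?_ ?_ (q := (-q3.1, -q3.2)) (hco2.mono ?_)
      ?_ ?_ ?_ ?_ ?_ ?_ ?_ ?_
    · intro e he heR
      rw [mem_r2] at he
      have h5 := hFm _ he
      rw [mem_BB] at heR
      simp only at h5
      omega
    · intro e he heF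
      rw [mem_r2] at he heF
      rw [← hBB, UU_r2, mem_r2, hF.UU_iff]
      refine hU _ he ?_
      have h5 := hFm _ heF
      simp only at h5 ⊢
      omega
    · intro e he
      rw [mem_r2, mem_inter, mem_union] at he
      rw [mem_inter, mem_union, mem_r2, mem_r2, mem_r2]
      refine ⟨?_, he.2⟩
      rcases he.1 with h5 | h5
      · left
        exact mem_filter.2 ⟨h5, hodd _ he.2⟩
      · exact Or.inr h5
    all_goals (unfold inB at hp hq3; dsimp only; omega)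
  rw [vx_rotc2] at hmain
  have h5 := (Co_r2.1 hmain).mono (od_sub w)
  have h6 : Co w (vx c0) (vx a) := (Str_co (TrackAux.FX_Str ((hF.FX_iff a).2 h1))).1.mono
    (inter_subset_left.trans (od_sub w))
  exact h6.symm.trans h5

/-- shift of labels by `(-1,-1)` -/
def shm : (ℤ × ℤ) ↪ (ℤ × ℤ) where
  toFun e := (e.1 - 1, e.2 - 1)
  inj' := by
    intro a b h
    have h1 := congrArg Prod.fst h
    have h2 := congrArg Prod.snd h
    simp only at h1 h2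
    exact Prod.ext (by omega) (by omega)

lemma mem_shm {G : Finset (ℤ × ℤ)} {e : ℤ × ℤ} : e ∈ G.map shm ↔ (e.1 + 1, e.2 + 1) ∈ G := by
  have : e = shm (e.1 + 1, e.2 + 1) := by
    unfold shm
    simp only [Function.Embedding.coeFn_mk, add_sub_cancel_right]
  constructor
  · intro h
    rw [this] at h
    exact (mem_map' shm).1 h
  · intro h
    rw [this]
    exact (mem_map' shm).2 h

lemma mem_rD2 {G : Finset (ℤ × ℤ)} {e : ℤ × ℤ} :
    e ∈ (G.map rotD).map rotD ↔ (2 - e.1, 2 - e.2) ∈ G := by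
  have : e = rotD (rotD (2 - e.1, 2 - e.2)) := by
    unfold rotD
    simp only [Function.Embedding.coeFn_mk, sub_sub_cancel]
  constructor
  · intro h
    rw [this] at h
    exact (mem_map' rotD).1 ((mem_map' rotD).1 h)
  · intro h
    rw [this]
    exact (mem_map' rotD).2 ((mem_map' rotD).2 h)

lemma mem_du1 {E ω : Finset (ℤ × ℤ)} {e : ℤ × ℤ} :
    e ∈ du E ω ↔ (e.1 - 1, e.2 - 1) ∈ E ∧ (e.1 - 1, e.2 - 1) ∉ ω := by
  rw [HookAux.mem_du]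
  rfl

lemma mem_sh1' {G : Finset (ℤ × ℤ)} {e : ℤ × ℤ} : e ∈ G.map sh1 ↔ (e.1 - 1, e.2 - 1) ∈ G := by
  rw [mem_map_sh1]
  rfl

lemma t1_dual (hu : 1 ≤ u) (hRu : 100 * u ≤ R) (hc : R < |(vx c0).1| ∨ R < |(vx c0).2|)
    (h1 : TipF w (BB R) c0 a) (h2 : TipB w (BB R) c0 b) (ha : vx a = (R, y))
    (hy : |y| ≤ R - 30 * u)
    (hsep : 20 * u < |(vx a).1 - (vx b).1| ∨ 20 * u < |(vx a).2 - (vx b).2|)
    (hnear : ∀ q : ℤ × ℤ, (q = (R, R) ∨ q = (R, -R)) → ¬ NearL q (40 * u) (plab b))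
    (hU : ∀ e ∈ U, 2 * (R - 28 * u) - 1 ≤ e.1 → MetL w (BB R) c0 e) {p q : ℤ × ℤ}
    (hp1 : p.1 = R - 28 * u) (hq1 : q.1 = R + 8 * u)
    (hp : inB (R - 28 * u) (R + 8 * u) (y + 4 * u) (y + 8 * u) p)
    (hpq : Co (du E (w \ U) ∩ Bx (R - 28 * u) (R + 8 * u) (y + 4 * u) (y + 8 * u)) p q)
    (hV : VC (R + 4 * u) (R + 8 * u) (y - 8 * u) (y + 8 * u) (du E (w \ U)))
    (hH : HC (R - 1) (R + 8 * u) (y - 8 * u) (y - 4 * u) (du E (w \ U))) : DCo w (fi a) p := by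
  obtain ⟨M, hF, hpos, hT, hb⟩ := tips_right (by omega) hc h1 h2 ha (by omega)
  have hW := win_right hu hRu ha hy hsep hnear hb (lo := -(2 * y) - 16 * u)
    (hi := -(2 * y) + 16 * u + 2) (Xm := -(2 * R) + 56 * u + 2) (by omega) (by omega) (by omega)
    (by omega) (by omega) (by omega)
  obtain ⟨q3, hq3, hq31, hco⟩ := joinR (by omega) (by omega) (by omega) (by omega) (by omega)
    (by omega) (by omega) hp hp1 hq1 hpq hV hH
  set G := Bx (R - 28 * u) (R + 8 * u) (y + 4 * u) (y + 8 * u) ∪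
    (Bx (R + 4 * u) (R + 8 * u) (y - 8 * u) (y + 8 * u) ∪
      Bx (R - 1) (R + 8 * u) (y - 8 * u) (y - 4 * u)) with hGdef
  have hBB : r2 (BB M \ BB R) = BB M \ BB R := by rw [r2_sdiff, r2_BB, r2_BB]
  have hco2 := Co_r2D.2 hco
  have hGm : ∀ e : ℤ × ℤ, e ∈ G → ((2 * (R - 28 * u) ≤ e.1 ∧ e.1 ≤ 2 * (R + 8 * u) ∧
      2 * (y + 4 * u) ≤ e.2 ∧ e.2 ≤ 2 * (y + 8 * u)) ∨ (2 * (R + 4 * u) ≤ e.1 ∧
      e.1 ≤ 2 * (R + 8 * u) ∧ 2 * (y - 8 * u) ≤ e.2 ∧ e.2 ≤ 2 * (y + 8 * u)) ∨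
      (2 * (R - 1) ≤ e.1 ∧ e.1 ≤ 2 * (R + 8 * u) ∧ 2 * (y - 8 * u) ≤ e.2 ∧
        e.2 ≤ 2 * (y - 4 * u))) ∧ (e.1 + e.2) % 2 = 1 := by
    intro e he
    rw [hGdef, mem_union, mem_union, mem_Bx, mem_Bx, mem_Bx] at he
    omega
  have hmain : DCo (r2 (od w)) (fi (rotc (rotc c0))) (1 - p.1, 1 - p.2) := by
    refine hole_dual1 (U := r2 U) (F := r2 (G.map shm)) (E := r2 E) hT hW ?_ ?_
      (q := (1 - q3.1, 1 - q3.2)) (hco2.mono ?_) ?_ ?_ ?_ ?_ ?_ ?_ ?_ ?_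
    · intro e he heR
      rw [mem_r2, mem_shm] at he
      have h5 := hGm _ he
      rw [mem_BB] at heR
      simp only at h5
      omega
    · intro e he heF
      rw [mem_r2] at he
      rw [mem_r2, mem_shm] at heF
      rw [← hBB, UU_r2, mem_r2, hF.UU_iff]
      refine hU _ he ?_
      have h5 := hGm _ heF
      simp only at h5 ⊢
      omega
    · intro e he
      rw [mem_rD2, mem_inter, mem_du1, mem_sdiff] at he
      obtain ⟨⟨g1, g2⟩, g3⟩ := he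
      have h5 := (hGm _ g3).2
      have e1 : ((2 - e.1 - 1, 2 - e.2 - 1) : ℤ × ℤ) = (-(e.1 - 1), -(e.2 - 1)) :=
        Prod.ext (by simp only; ring) (by simp only; ring)
      rw [e1] at g1 g2
      rw [mem_inter, mem_du1, mem_sdiff, mem_r2, mem_r2, mem_r2, mem_sh1', mem_r2, mem_shm]
      refine ⟨⟨g1, fun g4 => g2 ⟨od_sub _ g4.1, g4.2⟩⟩, ?_⟩
      have e2 : ((-(e.1 - 1) + 1, -(e.2 - 1) + 1) : ℤ × ℤ) = (2 - e.1, 2 - e.2) :=
        Prod.ext (by simp only; ring) (by simp only; ring)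
      simp only
      rw [e2]
      exact g3
    all_goals (unfold inB at hp hq3; dsimp only; omega)
  rw [fi_rotc2] at hmain
  obtain ⟨H, hH1⟩ := hmain
  -- back to the right side
  have h5 : DCo (od w) (fi c0) p := by
    refine ⟨r2 H, Co_r2D.1 (hH1.mono ?_)⟩
    intro e he
    rw [mem_du1, mem_r2] at he
    rw [mem_rD2, mem_du1, mem_r2]
    have e1 : ((2 - e.1 - 1, 2 - e.2 - 1) : ℤ × ℤ) = (-(e.1 - 1), -(e.2 - 1)) :=
      Prod.ext (by simp only; ring) (by simp only; ring)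
    have e2 : ((-(2 - e.1 - 1), -(2 - e.2 - 1)) : ℤ × ℤ) = (e.1 - 1, e.2 - 1) :=
      Prod.ext (by simp only; ring) (by simp only; ring)
    simp only at he ⊢
    rw [e1, e2]
    exact he
  have h6 : DCo (od w) (fi c0) (fi a) :=
    ⟨UU (BB M \ BB R) (od w) c0, (Str_co (TrackAux.FX_Str ((hF.FX_iff a).2 h1))).2⟩
  exact dco_od (h6.symm.trans h5)

theorem t1' : T1' := by
  intro w U E c0 a b R u y hu hRu hc h1 h2 ha hy hsep hnear hU
  exact ⟨fun p q hp1 hq1 hp hpq hV hH =>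
    t1_open hu hRu hc h1 h2 ha hy hsep hnear hU hp1 hq1 hp hpq hV hH,
    fun p q hp1 hq1 hp hpq hV hH =>
    t1_dual hu hRu hc h1 h2 ha hy hsep hnear hU hp1 hq1 hp hpq hV hH⟩

end right

end Pool.Agent.H19.ZF
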